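import Pool.Agent.Helper29.Smith.Final

/-! Smith's conjecture on the topology of Steiner minimal trees for the vertices of a regular
simplex (all definitions of the statement are in `Pool/Agent/Helper29/Smith/Statement.lean`). -/

namespace Pool.Agent.Results.MP_ebc12b_co.Main

open Pool.Agent.Helper29.Smith Pool.Agent.Helper29.Steiner

/-- **Smith's conjecture.** For every `d ≥ 2` the standard basis vectors `e_1, ..., e_d` of `ℝ^d`
have a Steiner minimal tree, and the underlying abstract tree of every Steiner minimal tree of
`e_1, ..., e_d` is isomorphic to `T_d = UG (tdPair d)`, the tree obtained from the good binary tree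
`G_d` by deleting the root and joining its two children by an edge. -/
theorem result (d : ℕ) (hd : 2 ≤ d) :
    (∃ t : STree d, IsSMT t) ∧ ∀ t : STree d, IsSMT t → Nonempty (t.G ≃g UG (tdPair d)) :=
  smith_main d hd

end Pool.Agent.Results.MP_ebc12b_co.Main
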